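import Pool.Agent.N65.TL.Defs
set_option autoImplicit false

/-!
The hypersurfaces `W(z) = λ` of tempered Laurent polynomials: definitions.
-/

namespace Pool.Agent.N65.TD

open Pool.Agent.TH826.MK (KQ symb Unramified Torus)

open Pool.Agent.N65.TL

variable {K : Type*} [Field K] {n : ℕ}

/-- The face polynomial of `W` in the direction `a`: the sum of the terms `w_m z^m` of `W` with the
largest value of `a · m`. -/
noncomputable def face (W : LP K n) (a : Fin n → ℤ) : LP K n :=
  open Classical in AddMonoidAlgebra.ofCoeff (W.coeff.filter fun m =>
    ∀ m', W.coeff m' ≠ 0 → ∑ i, a i * m' i ≤ ∑ i, a i * m i)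

/-- The tempered Laurent polynomials with the origin in the interior of the Newton polytope. -/
structure Tempered (W : LP K n) : Prop where
  /-- integral coefficients -/
  int : Integral W
  /-- the origin is an interior point of the Newton polytope -/
  interior : Interior W
  /-- the polynomials of the proper faces divide products of polynomials of simplex type -/
  faces : ∀ a : Fin n → ℤ, a ≠ 0 → Tame (face W a)

/-- The polynomial `W - λ`. -/
noncomputable def level (W : LP K n) (lam : K) : LP K n := W - AddMonoidAlgebra.single 0 lam

/-- The coordinate ring of the hypersurface `P = 0` in the torus. -/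
def HRing (P : LP K n) : Type _ := LP K n ⧸ Ideal.span {P}

noncomputable instance (P : LP K n) : CommRing (HRing P) :=
  Ideal.Quotient.commRing (Ideal.span {P})

/-- The restriction of the Laurent polynomials to the hypersurface. -/
noncomputable def hmk (P : LP K n) : LP K n →+* HRing P := Ideal.Quotient.mk (Ideal.span {P})

/-- The constants as functions on the hypersurface. -/
noncomputable def hcst (P : LP K n) : K →+* HRing P :=
  (hmk P).comp AddMonoidAlgebra.singleZeroRingHom

/-- The units `z_i`. -/
noncomputable def hz (P : LP K n) (i : Fin n) : (HRing P)ˣ :=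
  Units.map (hmk P : LP K n →* HRing P) (zlau i)

/-- The symbol `{z_1, ..., z_n}`. -/
noncomputable def hsym (P : LP K n) : KQ (HRing P) n := symb (hz P)

/-- The symbol `{z_1, ..., z_n}` has an unramified image in the Milnor K-theory of all fields `L`
with a homomorphism from the coordinate ring. -/
def Unram.{u, v} {K : Type u} [Field K] {n : ℕ} (P : LP K n) : Prop :=
  ∀ (L : Type v) [Field L] (f : HRing P →+* L), KQ.map n f (hsym P) ∈ Unramified L n

/-- There is a torus in the complex points (over `σ`) of the hypersurface `P = 0`, such that the
quotient of the regulator of the symbol `{z_0, ..., z_s}` on this torus and of `t` differs from `q`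
by at most `ε`. -/
def HasReg {s : ℕ} (P : LP K (s + 1)) (σ : K →+* ℂ) (t q ε : ℝ) : Prop :=
  ∃ Γ : Torus (HRing P) s, (∀ θ (x : K), Γ.e θ (hcst P x) = σ x) ∧
    |Γ.reg (hsym P) / t - q| ≤ ε

end Pool.Agent.N65.TD
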