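import Pool.Agent.N65.TD.Unram
set_option autoImplicit false

/-!
The regulators of the symbols `{z_0, ..., z_s}` on the hypersurfaces `W(z) = λ` for large `λ`.
-/

namespace Pool.Agent.N65.TD

open Filter Topology

open Pool.Agent.TH826.MK

open Pool.Agent.TH826.SX (pairing_close)

open Pool.Agent.N65.TL

section points

variable {K : Type*} [Field K] {n : ℕ} {P : LP K n} {σ : K →+* ℂ}

/-- The complex points of the hypersurface. -/
structure HPt (σ : K →+* ℂ) (P : LP K n) (z : Fin n → ℂ) : Prop where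
  ne : ∀ i, z i ≠ 0
  eq : lev σ (fun i => Units.mk0 (z i) (ne i)) P = 0

variable {z : Fin n → ℂ}

theorem lev_mk0 (hz : ∀ i, z i ≠ 0) (Q : LP K n) :
    lev σ (fun i => Units.mk0 (z i) (hz i)) Q =
      ∑ m ∈ Q.coeff.support, σ (Q.coeff m) * ∏ i, z i ^ (m i) := by
  refine (lev_eq _ _ Q).trans (Finset.sum_congr rfl fun m _ => ?_)
  congr 1
  unfold mon
  rw [Units.coe_prod]
  exact Finset.prod_congr rfl fun i _ => by rw [Units.val_zpow_eq_zpow_val, Units.val_mk0]

/-- evaluation on the hypersurface -/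
noncomputable def HPt.ev (h : HPt σ P z) : HRing P →+* ℂ :=
  Ideal.Quotient.lift (Ideal.span {P}) (lev σ fun i => Units.mk0 (z i) (h.ne i)) (by
    intro p hp
    have hle : Ideal.span {P} ≤ RingHom.ker (lev σ fun i => Units.mk0 (z i) (h.ne i)) := by
      rw [Ideal.span_le]
      rintro q rfl
      exact h.eq
    exact hle hp)

theorem HPt.ev_mk (h : HPt σ P z) (Q : LP K n) :
    h.ev (hmk P Q) = lev σ (fun i => Units.mk0 (z i) (h.ne i)) Q :=
  Ideal.Quotient.lift_mk _ _ _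

theorem HPt.ev_cst (h : HPt σ P z) (x : K) : h.ev (hcst P x) = σ x := by
  unfold hcst
  rw [RingHom.comp_apply, h.ev_mk]
  refine (lev_single _ _ 0 x).trans ?_
  rw [mon_zero, Units.val_one, mul_one]

theorem HPt.ev_z (h : HPt σ P z) (i : Fin n) : h.ev (hz P i : HRing P) = z i := by
  show h.ev (hmk P ((zlau i : (LP K n)ˣ) : LP K n)) = _
  rw [h.ev_mk]
  refine (lev_single _ _ (Pi.single i 1) 1).trans ?_
  rw [map_one, one_mul, mon_single, Units.val_mk0]

theorem HPt.congr {z' : Fin n → ℂ} (h : HPt σ P z) (h' : HPt σ P z') (hz : z = z') :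
    h.ev = h'.ev := by
  subst hz
  rfl

variable {D : ℕ} {Z : Fin n → (Fin D → ℝ) → ℂ}

theorem contDiff_ev (hZ : ∀ i, Good (Z i)) (h : ∀ θ, HPt σ P fun i => Z i θ) (b : HRing P) :
    ContDiff ℝ 2 fun θ => (h θ).ev b := by
  obtain ⟨Q, rfl⟩ : ∃ Q : LP K n, hmk P Q = b := Ideal.Quotient.mk_surjective b
  have e : (fun θ => (h θ).ev (hmk P Q)) = fun θ =>
      ∑ m ∈ Q.coeff.support, σ (Q.coeff m) * ∏ i, Z i θ ^ (m i) := by
    funext θ
    exact ((h θ).ev_mk _).trans (lev_mk0 _ _)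
  rw [e]
  exact ContDiff.sum fun m _ => contDiff_const.mul
    (contDiff_prod fun i _ => contDiff_zpow' (hZ i) _)

/-- a torus in the hypersurface -/
noncomputable def mkH (hZ : ∀ i, Good (Z i)) (h : ∀ θ, HPt σ P fun i => Z i θ)
    (hZp : ∀ i, Per (Z i)) : Torus (HRing P) D where
  e θ := (h θ).ev
  smooth b := contDiff_ev hZ h b
  periodic θ j := HPt.congr _ _ (funext fun i => hZp i θ j)

end points

section main

variable {K : Type*} [Field K] {s : ℕ} {W : LP K (s + 1)}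

theorem exists_torus (σ : K →+* ℂ) {al v : Fin (s + 1) → ℤ} (hv : W.coeff v ≠ 0)
    (hpos : 0 < dot al v) (hmax : ∀ m, W.coeff m ≠ 0 → m ≠ v → dot al m < dot al v)
    (i0 : Fin (s + 1)) {ε : ℝ} (hε : 0 < ε) :
    ∃ C : ℝ, ∀ lam : K, C ≤ ‖σ lam‖ → HasReg (level W lam) σ (Real.log ‖σ lam‖)
      ((2 * Real.pi) ^ s * (zmat al v i0).det) ε := by
  classical
  set k : ℕ := (dot al v).toNat with hk
  have hkz : (k : ℤ) = dot al v := Int.toNat_of_nonneg hpos.le
  have hk0 : 0 < k := by omega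
  have hkR : (0 : ℝ) < k := by exact_mod_cast hk0
  have hkzR : ((dot al v : ℤ) : ℝ) = k := by
    rw [← hkz]
    simp
  have hσv : σ (W.coeff v) ≠ 0 := (map_ne_zero σ).2 hv
  obtain ⟨δ, hδ, hclose⟩ := pairing_close (zmat al v i0) hε
  set A : ℝ := 1 + ∑ i, |(al i : ℝ)| with hA
  have hA1 : 1 ≤ A := by
    have : 0 ≤ ∑ i, |(al i : ℝ)| := Finset.sum_nonneg fun i _ => abs_nonneg _
    linarith
  have hAi : ∀ i, |(al i : ℝ)| ≤ A := by
    intro i
    have h1 := Finset.single_le_sum (f := fun i => |(al i : ℝ)|) (fun i _ => abs_nonneg _)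
      (Finset.mem_univ i)
    have h2 : |(al i : ℝ)| ≤ ∑ i, |(al i : ℝ)| := h1
    linarith
  set δ0 : ℝ := δ / 2 with hδ0
  have hδ0pos : 0 < δ0 := by positivity
  obtain ⟨R, hR1, hzz⟩ := exists_z σ hv hpos hmax i0 le_rfl hδ0pos
  set C2 : ℝ := |Real.log ‖σ (W.coeff v)‖| with hC2
  have hC20 : 0 ≤ C2 := abs_nonneg _
  have hlogR : 0 ≤ Real.log R := Real.log_nonneg hR1
  set M : ℝ := (A * C2 + δ0) / δ0 + k * (Real.log R + C2) + 1 with hM
  have hM1 : 0 ≤ (A * C2 + δ0) / δ0 := by positivity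
  have hM3 : 0 ≤ k * (Real.log R + C2) := by positivity
  refine ⟨Real.exp M + 1, fun lam hlam => ?_⟩
  have hln : 0 < ‖σ lam‖ := by linarith [Real.exp_pos M]
  have hl0 : σ lam ≠ 0 := norm_pos_iff.1 hln
  set t : ℝ := Real.log ‖σ lam‖ with ht
  have htM : M ≤ t := by
    rw [ht, Real.le_log_iff_exp_le hln]
    linarith
  have htpos : 0 < t := by linarith
  have ht0 : t ≠ 0 := htpos.ne'
  obtain ⟨κ, hκ⟩ := IsAlgClosed.exists_pow_nat_eq (σ lam / σ (W.coeff v)) hk0
  have hκ0 : κ ≠ 0 := by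
    rintro rfl
    rw [zero_pow hk0.ne'] at hκ
    exact (div_ne_zero hl0 hσv) hκ.symm
  have hlogκ : Real.log ‖κ‖ = (t - Real.log ‖σ (W.coeff v)‖) / k := by
    have h1 : (k : ℝ) * Real.log ‖κ‖ = t - Real.log ‖σ (W.coeff v)‖ := by
      rw [← Real.log_pow, ← norm_pow, hκ, norm_div, Real.log_div hln.ne'
        (norm_ne_zero_iff.2 hσv)]
    rw [← h1]
    field_simp
  have hκlog : |Real.log ‖κ‖ - t / k| ≤ C2 := by
    rw [hlogκ]
    have h2 : (t - Real.log ‖σ (W.coeff v)‖) / k - t / k =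
        -(Real.log ‖σ (W.coeff v)‖ / k) := by ring
    rw [h2, abs_neg, abs_div, abs_of_pos hkR]
    have h3 : (1 : ℝ) ≤ k := by exact_mod_cast hk0
    exact div_le_self (abs_nonneg _) h3
  have hκR : R ≤ ‖κ‖ := by
    have h1 := (abs_le.1 hκlog).1
    have h2 : Real.log R ≤ Real.log ‖κ‖ := by
      have h3 : Real.log R + C2 ≤ t / k := by
        rw [le_div_iff₀ hkR]
        linarith
      linarith
    exact (Real.log_le_log_iff (by linarith) (norm_pos_iff.2 hκ0)).1 h2
  obtain ⟨Z, hZg, hZp, hZlog, hZlw, hZeq⟩ := hzz s id (fun _ => κ) (good_const hκ0)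
    (fun _ _ => rfl) (fun _ => hκR) (fun j θ => by rw [lw_const, norm_zero])
  have hPt : ∀ θ, HPt σ (level W lam) fun i => Z i θ := fun θ =>
    { ne := fun i => (hZg i).ne_zero θ
      eq := by
        rw [lev_level, lev_mk0, hZeq θ, hκ]
        field_simp
        ring }
  set Γ := mkH hZg hPt hZp with hΓ
  refine ⟨Γ, fun θ x => (hPt θ).ev_cst x, ?_⟩
  unfold hsym
  rw [Torus.reg_symb]
  have hzfn : ∀ i, Γ.fn (hz (level W lam) i : HRing (level W lam)) = Z i := by
    intro i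
    funext θ
    exact (hPt θ).ev_z i
  refine hclose _ _ ht0 (fun l => Γ.good _) (fun i θ => ?_) (fun i j θ => ?_)
  · rw [congrFun (hzfn i) θ]
    show |Real.log ‖Z i θ‖ / t - (al i : ℝ) / dot al v| < δ
    rw [hkzR]
    have h1 := hZlog i θ
    have h3 : Real.log ‖Z i θ‖ / t - al i / k =
        ((Real.log ‖Z i θ‖ - al i * Real.log ‖κ‖) +
          al i * (Real.log ‖κ‖ - t / k)) / t := by
      field_simp
      ring
    rw [h3, abs_div, abs_of_pos htpos, div_lt_iff₀ htpos]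
    have h4 : |(al i : ℝ)| * |Real.log ‖κ‖ - t / k| ≤ A * C2 :=
      mul_le_mul (hAi i) hκlog (abs_nonneg _) (by linarith)
    have h5 : (A * C2 + δ0) / δ0 ≤ t := by linarith
    rw [div_le_iff₀ hδ0pos] at h5
    have h6 : t * δ0 < δ * t := by
      rw [hδ0]
      nlinarith
    have h7 := abs_add_le (Real.log ‖Z i θ‖ - al i * Real.log ‖κ‖)
      (al i * (Real.log ‖κ‖ - t / k))
    rw [abs_mul] at h7
    linarith
  · rw [hzfn i]
    have h1 := hZlw i j θ
    rw [lw_const, mul_zero, zero_add] at h1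
    have h2 : (((zmat al v i0 i j.succ : ℝ)) : ℂ) =
        ∑ l, if j = id l then (bdir v i0 l i : ℂ) else 0 := by
      rw [Finset.sum_eq_single j]
      · rw [if_pos (show j = id j from rfl)]
        show (((bdir v i0 j i : ℝ)) : ℂ) = _
        push_cast
        rfl
      · intro l _ hl
        rw [if_neg fun h => hl h.symm]
      · intro h
        exact absurd (Finset.mem_univ _) h
    rw [h2]
    exact h1.trans_lt (by rw [hδ0]; linarith)

end main

/-- The regulators. -/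
theorem exists_reg {K : Type*} [Field K] {s : ℕ} {W : LP K (s + 1)} (hW : Interior W)
    (σ : K →+* ℂ) : ∃ q : ℝ, q ≠ 0 ∧ ∀ ε : ℝ, 0 < ε → ∃ C : ℝ, ∀ lam : K, C ≤ ‖σ lam‖ →
      HasReg (level W lam) σ (Real.log ‖σ lam‖) q ε := by
  obtain ⟨al, v, hv, hpos, hmax⟩ := exists_vertex hW
  obtain ⟨i0, hi0⟩ : ∃ i0, v i0 ≠ 0 := by
    by_contra hcon
    push Not at hcon
    have h1 : dot al v = 0 := Finset.sum_eq_zero fun i _ => by rw [hcon i, mul_zero]
    omega
  refine ⟨(2 * Real.pi) ^ s * (zmat al v i0).det, mul_ne_zero (pow_ne_zero _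
    (by have := Real.pi_pos; positivity)) (det_zmat hpos hi0), fun ε hε => ?_⟩
  exact exists_torus σ hv hpos hmax i0 hε

end Pool.Agent.N65.TD
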