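import Pool.Agent.N65.TD.Defs
import Pool.Agent.N65.TL.Ring
import Pool.Agent.N65.TL.Tor
set_option autoImplicit false

/-!
The symbols `{z_0, ..., z_s}` on the hypersurfaces `W(z) = λ` are unramified.
-/

namespace Pool.Agent.N65.TD

open scoped WithZero

open Pool.Agent.TH826.MK

open Pool.Agent.N65.TL

section face

variable {K : Type*} [Field K] {n : ℕ}

theorem coeff_face_of (W : LP K n) (a m : Fin n → ℤ)
    (h : ∀ m', W.coeff m' ≠ 0 → ∑ i, a i * m' i ≤ ∑ i, a i * m i) :
    (face W a).coeff m = W.coeff m := by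
  classical
  unfold face
  exact Finsupp.filter_apply_pos _ _ h

theorem coeff_face_of_not (W : LP K n) (a m : Fin n → ℤ)
    (h : ¬ ∀ m', W.coeff m' ≠ 0 → ∑ i, a i * m' i ≤ ∑ i, a i * m i) :
    (face W a).coeff m = 0 := by
  classical
  unfold face
  exact Finsupp.filter_apply_neg _ _ h

theorem val_mon {L : Type*} [Field L] (v : Valuation L ℤᵐ⁰) {n : ℕ} (z : Fin n → Lˣ)
    {k : Fin n → ℤ} (hk : ∀ j, v (z j : L) = WithZero.exp (k j)) (m : Fin n → ℤ) :
    v ((mon z m : Lˣ) : L) = WithZero.exp (∑ j, k j * m j) := by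
  unfold mon
  rw [Units.coe_prod, map_prod]
  have h2 : ∀ t : Finset (Fin n), ∏ j ∈ t, v ((z j ^ m j : Lˣ) : L) =
      WithZero.exp (∑ j ∈ t, k j * m j) := by
    intro t
    induction t using Finset.induction_on with
    | empty => simp
    | insert j t hj ih =>
      rw [Finset.prod_insert hj, Finset.sum_insert hj, WithZero.exp_add, ih,
        Units.val_zpow_eq_zpow_val, map_zpow₀, hk, ← WithZero.exp_zsmul, smul_eq_mul,
        mul_comm (m j)]
  exact h2 Finset.univ

/-- The value of `W` at a point is the value of the face polynomial up to smaller terms. -/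
theorem val_sub_face {L : Type*} [Field L] (φ : K →+* L) (v : Valuation L ℤᵐ⁰) {W : LP K n}
    (hint : Integral W) (z : Fin n → Lˣ) {k : Fin n → ℤ}
    (hk : ∀ j, v (z j : L) = WithZero.exp (k j)) {m0 : Fin n → ℤ} (hm0 : W.coeff m0 ≠ 0)
    (hmax : ∀ m', W.coeff m' ≠ 0 → ∑ i, k i * m' i ≤ ∑ i, k i * m0 i) :
    v (lev φ z W - lev φ z (face W k)) < v ((mon z m0 : Lˣ) : L) := by
  classical
  rw [val_mon v z hk]
  have h1 : lev φ z W = ∑ m ∈ W.coeff.support, φ (W.coeff m) * ((mon z m : Lˣ) : L) :=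
    lev_eq _ _ _
  have h2 : lev φ z (face W k) =
      ∑ m ∈ W.coeff.support, φ ((face W k).coeff m) * ((mon z m : Lˣ) : L) := by
    rw [lev_eq]
    refine Finset.sum_subset (fun m hm => ?_) fun m _ hm => ?_
    · rw [Finsupp.mem_support_iff] at hm ⊢
      intro h0
      apply hm
      by_cases h : ∀ m', W.coeff m' ≠ 0 → ∑ i, k i * m' i ≤ ∑ i, k i * m i
      · rw [coeff_face_of W k m h, h0]
      · exact coeff_face_of_not W k m h
    · rw [Finsupp.notMem_support_iff.1 hm, map_zero, zero_mul]
  rw [h1, h2, ← Finset.sum_sub_distrib]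
  refine Valuation.map_sum_lt v WithZero.exp_ne_zero fun m hm => ?_
  have hm' : W.coeff m ≠ 0 := Finsupp.mem_support_iff.1 hm
  by_cases h : ∀ m', W.coeff m' ≠ 0 → ∑ i, k i * m' i ≤ ∑ i, k i * m i
  · rw [coeff_face_of W k m h, sub_self, map_zero]
    exact WithZero.exp_pos
  · rw [coeff_face_of_not W k m h, map_zero, zero_mul, sub_zero, map_mul, val_mon v z hk]
    have h3 : ∑ i, k i * m i < ∑ i, k i * m0 i := by
      refine lt_of_le_of_ne (hmax m hm') fun he => h fun m' h' => ?_
      rw [he]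
      exact hmax m' h'
    have h4 : v (φ (W.coeff m)) ≤ 1 :=
      val_le_one_of_integral v (map_isIntegral_int φ (hint m))
    calc v (φ (W.coeff m)) * WithZero.exp (∑ i, k i * m i)
        ≤ 1 * WithZero.exp (∑ i, k i * m i) := mul_le_mul' h4 le_rfl
      _ < WithZero.exp (∑ i, k i * m0 i) := by
        rw [one_mul]
        exact WithZero.exp_lt_exp.2 h3

theorem exists_max_dot {W : LP K n} (a : Fin n → ℤ) {m1 : Fin n → ℤ} (hm1 : W.coeff m1 ≠ 0) :
    ∃ m0, W.coeff m0 ≠ 0 ∧ ∀ m', W.coeff m' ≠ 0 → ∑ i, a i * m' i ≤ ∑ i, a i * m0 i := by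
  obtain ⟨m0, h0, h1⟩ := Finset.exists_max_image W.coeff.support (fun m => ∑ i, a i * m i)
    ⟨m1, Finsupp.mem_support_iff.2 hm1⟩
  exact ⟨m0, Finsupp.mem_support_iff.1 h0, fun m' h' => h1 m' (Finsupp.mem_support_iff.2 h')⟩

/-- If the value of a tempered polynomial is integral at the point `z`, and not all `z_j` are
units, then the symbols which contain the entries `z` lie in the unit part. -/
theorem mem_unitPart_of_tempered {L : Type*} [Field L] (φ : K →+* L) (v : Valuation L ℤᵐ⁰)
    {N : ℕ} (a : Fin N → Lˣ) {p : Fin n → Fin N} (hp : Function.Injective p) {W : LP K n}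
    (hint : Integral W) (hin : Interior W) (hf : ∀ a : Fin n → ℤ, a ≠ 0 → Tame (face W a))
    (hle : v (lev φ (fun j => a (p j)) W) ≤ 1) (hne : ∃ j, v (a (p j) : L) ≠ 1) :
    symb a ∈ unitPart v N := by
  classical
  choose k hk using fun j => exists_ord v (a (p j))
  have hk0 : k ≠ 0 := by
    rintro rfl
    obtain ⟨j, hj⟩ := hne
    apply hj
    rw [hk j, Pi.zero_apply, WithZero.exp_zero]
  obtain ⟨m1, hm1, hpos⟩ := hin k hk0
  obtain ⟨m0, hm0, hmax⟩ := exists_max_dot k hm1
  have h1 := val_sub_face φ v hint (fun j => a (p j)) hk hm0 hmax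
  have h2 : 1 < v ((mon (fun j => a (p j)) m0 : Lˣ) : L) := by
    rw [val_mon v _ hk, ← WithZero.exp_zero]
    exact WithZero.exp_lt_exp.2 (hpos.trans_le (hmax m1 hm1))
  have h3 : v (lev φ (fun j => a (p j)) (face W k)) < v ((mon (fun j => a (p j)) m0 : Lˣ) : L) := by
    have h4 : lev φ (fun j => a (p j)) (face W k) = lev φ (fun j => a (p j)) W -
        (lev φ (fun j => a (p j)) W - lev φ (fun j => a (p j)) (face W k)) := by ring
    rw [h4]
    exact (v.map_sub _ _).trans_lt (max_lt (hle.trans_lt h2) h1)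
  refine mem_unitPart_of_tame φ v a hp (hf k hk0) (m0 := m0) ?_ h3
  rw [coeff_face_of W k m0 hmax]
  exact hm0

end face

section hyper

variable {K : Type*} [Field K] {n : ℕ} (P : LP K n)

theorem hmk_self : hmk P P = 0 :=
  Ideal.Quotient.eq_zero_iff_mem.2 (Ideal.subset_span (Set.mem_singleton P))

theorem lev_level {R : Type*} [CommRing R] (φ : K →+* R) (z : Fin n → Rˣ) (W : LP K n) (lam : K) :
    lev φ z (level W lam) = lev φ z W - φ lam := by
  unfold level
  rw [map_sub, lev_single, mon_zero, Units.val_one, mul_one]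

theorem lev_hz {L : Type*} [CommRing L] (f : HRing P →+* L) :
    lev (f.comp (hcst P)) (fun i => Units.map (f : HRing P →* L) (hz P i)) P = 0 := by
  have h1 : f (hmk P P) = 0 := by rw [hmk_self, map_zero]
  rw [← h1]
  exact (hom_eq_lev (f.comp (hmk P)) P).symm

/-- The symbol `{z_1, ..., z_n}` on `W(z) = λ` is unramified. -/
theorem unram {W : LP K n} (hW : Tempered W) {lam : K} (hlam : IsIntegral ℤ lam)
    {L : Type*} [Field L] (f : HRing (level W lam) →+* L) :
    KQ.map n f (hsym (level W lam)) ∈ Unramified L n := by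
  classical
  unfold hsym
  rw [KQ.map_symb]
  unfold Unramified
  simp only [Submodule.mem_iInf]
  intro v _
  set z : Fin n → Lˣ := fun i => Units.map (f : HRing (level W lam) →* L) (hz (level W lam) i)
    with hz'
  change symb z ∈ unitPart v n
  by_cases hne : ∃ j, v (z j : L) ≠ 1
  · refine mem_unitPart_of_tempered (f.comp (hcst (level W lam))) v z (p := id)
      Function.injective_id hW.int hW.interior hW.faces ?_ hne
    have h1 := lev_hz (level W lam) f
    rw [lev_level, sub_eq_zero] at h1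
    have h2 : v ((f.comp (hcst (level W lam))) lam) ≤ 1 :=
      val_le_one_of_integral v (map_isIntegral_int (f.comp (hcst (level W lam))) hlam)
    rw [← h1] at h2
    exact h2
  · push Not at hne
    exact Submodule.subset_span ⟨z, hne, rfl⟩

end hyper

end Pool.Agent.N65.TD
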